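import Pool.Agent.H87.MS.Final

/-!
# The symbol lengths of the elements of `n`-fold Massey products have a maximum

Let `p` be a prime and `n ≥ 2`. Among all elements of all `n`-fold Massey products
`⟨φ₁, …, φₙ⟩ ⊆ H²(G_F(p), ℤ/p)`, where `F` runs over all fields with a primitive `p`-th root of unity and
`φ₁, …, φₙ` over `H¹(G_F(p), ℤ/p)`, there is one of maximal symbol length. By the Merkurjev-Suslin theorem
(recalled in the setting of the problem) the symbol length of this element is a number `M(n, p) < ∞`.
So the symbol lengths are bounded by `M(n, p)`, and this bound is optimal.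

The proof. Suppose that there are elements `αᵢ` of `n`-fold Massey products over fields `Fᵢ` whose symbol
lengths tend to infinity. A defining system for `αᵢ` depends only on a finite Galois extension `Eᵢ / Fᵢ`
of degree at most `p ^ (n + 1) ^ 2`. Let `F` be an ultraproduct of the `Fᵢ`. The relative algebraic
closure of `F` in the ultraproduct of the fields `Fᵢ(p)` is the maximal pro-`p` extension `F(p)`, and as
the degrees of the `Eᵢ` are bounded, the defining systems have a limit, a defining system over `F`. If
its value `α` were a sum of `m` cup products, then so would be `αᵢ` for almost all `i`. So the symbol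
length of `α` is `⊤` (which in reality does not occur, by the Merkurjev-Suslin theorem), and `α` is
an element of maximal symbol length.
-/

set_option autoImplicit false

universe u

namespace Pool.Agent.Results.MP_fac77f_nt.MasseySymbolLength

open Pool.Agent.H87.MS

/-- Let `p` be a prime and `n ≥ 2`. There are a field `F₀` with a primitive `p`-th root of unity and an
element (the class of `c₀`) of an `n`-fold Massey product of classes in `H¹(G_{F₀}(p), ℤ/p)`, such that for
every field `F` with a primitive `p`-th root of unity and every element (the class of `c`) of an `n`-fold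
Massey product of classes in `H¹(G_F(p), ℤ/p)` the symbol length of `c` is at most that of `c₀`. -/
theorem result (p : ℕ) (hp : p.Prime) (n : ℕ) (_ : 2 ≤ n) :
    ∃ (F₀ P₀ : Type u) (_ : Field F₀) (_ : Field P₀) (_ : Algebra F₀ P₀)
      (φ₀ : Fin n → Gal(P₀/F₀) → ZMod p) (c₀ : Gal(P₀/F₀) → Gal(P₀/F₀) → ZMod p),
      (∃ ζ : F₀, IsPrimitiveRoot ζ p) ∧ IsMaxPro p F₀ P₀ ∧ RepresentsMassey φ₀ c₀ ∧
      ∀ (F P : Type u) [Field F] [Field P] [Algebra F P], (∃ ζ : F, IsPrimitiveRoot ζ p) →
        IsMaxPro p F P → ∀ (φ : Fin n → Gal(P/F) → ZMod p) (c : Gal(P/F) → Gal(P/F) → ZMod p),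
        RepresentsMassey φ c → symbolLength c ≤ symbolLength c₀ :=
  maxAttained hp n

end Pool.Agent.Results.MP_fac77f_nt.MasseySymbolLength
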